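import Pool.Agent.N237.MD.CBStm

/-!
# Orbits of vectors with singular spectral measure (project CB, subtask CB/4)
-/

set_option autoImplicit false

open Finset Filter Topology MeasureTheory
open scoped ComplexOrder ENNReal

noncomputable section

namespace Pool.Agent.N767.CB

open Pool.Agent.N237.MD SM345.SPA

/-- a compact null set is covered by few balls of radius `r` -/
theorem cover (K : Set (AddCircle (1 : ℝ))) (hK : IsCompact K)
    (h0 : (volume : Measure (AddCircle (1 : ℝ))) K = 0) (θ : ℝ) (hθ : 0 < θ) :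
    ∃ R : ℝ, 0 < R ∧ ∀ r : ℝ, 0 < r → r ≤ R →
      ∃ s : Finset (AddCircle (1 : ℝ)), (s.card : ℝ) * r ≤ θ ∧ ∀ x ∈ K, ∃ y ∈ s, dist x y ≤ r := by
  classical
  have h1 : Tendsto (fun r => (volume : Measure (AddCircle (1 : ℝ))) (Metric.cthickening r K)) (𝓝 0)
      (𝓝 ((volume : Measure (AddCircle (1 : ℝ))) K)) :=
    tendsto_measure_cthickening_of_isClosed ⟨1, one_pos, measure_ne_top _ _⟩ hK.isClosed
  rw [h0] at h1
  have h2 : ∀ᶠ r in 𝓝 (0 : ℝ), (volume : Measure (AddCircle (1 : ℝ))) (Metric.cthickening r K) <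
      ENNReal.ofReal θ := h1.eventually_lt_const (by simpa using hθ)
  obtain ⟨R, hR, hR2⟩ := Metric.eventually_nhds_iff.1 h2
  refine ⟨min 1 (R / 2), by positivity, fun r hr hrR => ?_⟩
  have hr1 : r ≤ 1 := hrR.trans (min_le_left _ _)
  have hr2 : r < R := by
    have := hrR.trans (min_le_right _ _)
    linarith
  have hvol : (volume : Measure (AddCircle (1 : ℝ))) (Metric.cthickening r K) < ENNReal.ofReal θ := by
    apply hR2
    rw [Real.dist_eq, sub_zero, abs_of_pos hr]
    exact hr2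
  -- bound for separated sets
  have hsep : ∀ s : Finset (AddCircle (1 : ℝ)), (↑s ⊆ K) →
      (∀ x ∈ s, ∀ y ∈ s, x ≠ y → r < dist x y) → (s.card : ℝ) * r ≤ θ := by
    intro s hsK hs
    have hd : Set.PairwiseDisjoint (↑s : Set (AddCircle (1 : ℝ)))
        (fun y => Metric.closedBall y (r / 2)) := by
      intro x hx y hy hxy
      apply Metric.closedBall_disjoint_closedBall
      have := hs x hx y hy hxy
      linarith
    have h3 : (volume : Measure (AddCircle (1 : ℝ))) (⋃ y ∈ s, Metric.closedBall y (r / 2)) =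
        ∑ y ∈ s, (volume : Measure (AddCircle (1 : ℝ))) (Metric.closedBall y (r / 2)) :=
      measure_biUnion_finset hd (fun y _ => Metric.isClosed_closedBall.measurableSet)
    have h4 : (⋃ y ∈ s, Metric.closedBall y (r / 2)) ⊆ Metric.cthickening r K := by
      intro z hz
      simp only [Set.mem_iUnion] at hz
      obtain ⟨y, hy, hz⟩ := hz
      refine Metric.mem_cthickening_of_dist_le z y r K (hsK hy) ?_
      rw [Metric.mem_closedBall] at hz
      linarith
    have h5 := measure_mono (μ := (volume : Measure (AddCircle (1 : ℝ)))) h4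
    rw [h3] at h5
    have h6 : ∀ y ∈ s, (volume : Measure (AddCircle (1 : ℝ))) (Metric.closedBall y (r / 2)) =
        ENNReal.ofReal r := by
      intro y _
      rw [AddCircle.volume_closedBall]
      congr 1
      rw [min_eq_right (by linarith)]
      ring
    rw [Finset.sum_congr rfl h6, Finset.sum_const, nsmul_eq_mul] at h5
    have h7 : ((s.card : ℝ≥0∞)) * ENNReal.ofReal r = ENNReal.ofReal ((s.card : ℝ) * r) := by
      rw [ENNReal.ofReal_mul (by positivity), ENNReal.ofReal_natCast]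
    rw [h7] at h5
    exact (ENNReal.ofReal_le_ofReal_iff hθ.le).1 (h5.trans hvol.le)
  -- a maximal separated set
  let P : ℕ → Prop := fun n => ∃ s : Finset (AddCircle (1 : ℝ)), (↑s ⊆ K) ∧
      (∀ x ∈ s, ∀ y ∈ s, x ≠ y → r < dist x y) ∧ s.card = n
  have hP0 : P 0 := ⟨∅, by simp, by simp, by simp⟩
  have hnP : ∃ n, ¬ P n := by
    refine ⟨⌊θ / r⌋₊ + 1, ?_⟩
    rintro ⟨s, hs1, hs2, hs3⟩
    have h8 := hsep s hs1 hs2
    rw [← le_div_iff₀ hr, hs3] at h8
    push_cast at h8
    have := Nat.lt_floor_add_one (θ / r)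
    linarith
  let n := Nat.find hnP
  have hn : ¬ P n := Nat.find_spec hnP
  have hn0 : n ≠ 0 := fun h => hn (h ▸ hP0)
  have hn1 : P (n - 1) := by
    by_contra hcon
    have := Nat.find_min' hnP hcon
    omega
  obtain ⟨s, hs1, hs2, hs3⟩ := hn1
  refine ⟨s, hsep s hs1 hs2, ?_⟩
  intro x hx
  by_contra hcon
  push Not at hcon
  apply hn
  have hxs : x ∉ s := by
    intro hxs
    have := hcon x hxs
    rw [dist_self] at this
    linarith
  refine ⟨insert x s, ?_, ?_, ?_⟩
  · rw [Finset.coe_insert]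
    exact Set.insert_subset hx hs1
  · intro a ha b hb hab
    rw [Finset.mem_insert] at ha hb
    rcases ha with rfl | ha <;> rcases hb with rfl | hb
    · exact absurd rfl hab
    · exact hcon b hb
    · rw [dist_comm]
      exact hcon a ha
    · exact hs2 a ha b hb hab
  · rw [Finset.card_insert_of_notMem hxs, hs3]
    omega

theorem fourier_close (h : ℕ) (x y : AddCircle (1 : ℝ)) :
    ‖(fourier (h : ℤ) x : ℂ) - fourier (h : ℤ) y‖ ≤ 2 * Real.pi * h * dist x y := by
  obtain ⟨z, hz⟩ : ∃ z : AddCircle (1 : ℝ), x = y + z := ⟨x - y, by abel⟩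
  have hd : dist x y = ‖z‖ := by rw [dist_eq_norm, hz]; congr 1; abel
  rw [hd]
  have h1 : (fourier (h : ℤ) x : ℂ) = fourier (h : ℤ) y * fourier (h : ℤ) z := by
    rw [hz, fourier_apply, fourier_apply, fourier_apply, smul_add, AddCircle.toCircle_add]
    simp
  obtain ⟨t, ht⟩ := QuotientAddGroup.mk_surjective z
  have ht' : ((t : ℝ) : AddCircle (1 : ℝ)) = z := ht
  have hs : (((t - round t : ℝ)) : AddCircle (1 : ℝ)) = z := by
    rw [← ht', AddCircle.coe_sub]
    have : (((round t : ℤ) : ℝ) : AddCircle (1 : ℝ)) = 0 := by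
      rw [AddCircle.coe_eq_zero_iff]
      exact ⟨round t, by simp⟩
    rw [this, sub_zero]
  have hn : ‖z‖ = |t - round t| := by
    rw [← ht', AddCircle.norm_eq]
    simp
  rw [h1, ← mul_sub_one, norm_mul]
  have h2 : ‖(fourier (h : ℤ) y : ℂ)‖ = 1 := by
    rw [fourier_apply]
    exact Circle.norm_coe _
  rw [h2, one_mul, ← hs, fourier_coe_apply, hs, hn]
  have h3 : (2 * (Real.pi : ℂ) * Complex.I * ((h : ℤ) : ℂ) * ((t - round t : ℝ) : ℂ) / ((1 : ℝ) : ℂ)) =
      Complex.I * ((2 * Real.pi * h * (t - round t) : ℝ) : ℂ) := by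
    push_cast
    ring
  rw [h3]
  refine (Real.norm_exp_I_mul_ofReal_sub_one_le).trans ?_
  rw [Real.norm_eq_abs, abs_mul, abs_of_nonneg (by positivity : (0 : ℝ) ≤ 2 * Real.pi * h)]

theorem approx (σ : Measure (AddCircle (1 : ℝ))) [IsFiniteMeasure σ] (K : Set (AddCircle (1 : ℝ)))
    (hK : MeasurableSet K) (s : Finset (AddCircle (1 : ℝ))) (r : ℝ) (hr : 0 ≤ r)
    (hcov : ∀ x ∈ K, ∃ y ∈ s, dist x y ≤ r) :
    ∃ v : Fin s.card → Lp ℂ 2 σ, ∀ h : ℕ, ∃ c : Fin s.card → ℂ,
      ‖ch σ (h : ℤ) - ∑ j, c j • v j‖ ≤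
        σ.real Kᶜ ^ ((1 : ℝ) / 2) + 2 * Real.pi * h * r * σ.real Set.univ ^ ((1 : ℝ) / 2) := by
  classical
  let y : Fin s.card → AddCircle (1 : ℝ) := fun j => (s.equivFin.symm j : AddCircle (1 : ℝ))
  let f : Fin s.card → Set (AddCircle (1 : ℝ)) := fun j => K ∩ Metric.closedBall (y j) r
  let B : Fin s.card → Set (AddCircle (1 : ℝ)) := disjointed f
  have hfm : ∀ j, MeasurableSet (f j) := fun j =>
    hK.inter Metric.isClosed_closedBall.measurableSet
  have hB : ∀ j, MeasurableSet (B j) := fun j =>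
    disjointedRec (f := f) (p := fun S => MeasurableSet S) (fun t i ht => ht.diff (hfm i)) (hfm j)
  have hBf : ∀ j, B j ⊆ f j := fun j => disjointed_le f j
  have hdisj : ∀ i j, i ≠ j → Disjoint (B i) (B j) := by
    intro i j hij
    rcases lt_or_gt_of_ne hij with h | h
    · exact disjoint_disjointed_of_lt f h
    · exact (disjoint_disjointed_of_lt f h).symm
  have hun : ∀ x ∈ K, ∃ j, x ∈ B j := by
    intro x hx
    obtain ⟨z, hz, hxz⟩ := hcov x hx
    have h1 : x ∈ f (s.equivFin ⟨z, hz⟩) := by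
      refine ⟨hx, ?_⟩
      simp only [y, Equiv.symm_apply_apply]
      exact hxz
    have h2 : x ∈ (Finset.univ.sup f) := by
      rw [Finset.sup_set_eq_biUnion]
      simp only [Set.mem_iUnion]
      exact ⟨_, Finset.mem_univ _, h1⟩
    rw [← Fintype.sup_disjointed, Finset.sup_set_eq_biUnion] at h2
    simp only [Set.mem_iUnion] at h2
    obtain ⟨j, _, hj⟩ := h2
    exact ⟨j, hj⟩
  refine ⟨fun j => indicatorConstLp 2 (hB j) (measure_ne_top σ _) (1 : ℂ), fun h => ?_⟩
  refine ⟨fun j => fourier (h : ℤ) (y j), ?_⟩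
  let g1 : Lp ℂ 2 σ := indicatorConstLp 2 hK.compl (measure_ne_top σ _) (1 : ℂ)
  let g2 : Lp ℂ 2 σ := indicatorConstLp 2 MeasurableSet.univ (measure_ne_top σ _)
    ((2 * Real.pi * h * r : ℝ) : ℂ)
  have hr0 : 0 ≤ 2 * Real.pi * h * r := by positivity
  have hn1 : ‖g1‖ = σ.real Kᶜ ^ ((1 : ℝ) / 2) := by
    rw [norm_indicatorConstLp (by norm_num) (by norm_num)]
    simp
  have hn2 : ‖g2‖ = 2 * Real.pi * h * r * σ.real Set.univ ^ ((1 : ℝ) / 2) := by
    rw [norm_indicatorConstLp (by norm_num) (by norm_num), Complex.norm_real, Real.norm_eq_abs,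
      abs_of_nonneg hr0]
    simp
  rw [← hn1, ← hn2]
  refine le_trans ?_ (norm_add_le g1 g2)
  apply Lp.norm_le_norm_of_ae_le
  have e1 := (fourier (T := (1 : ℝ)) (h : ℤ)).coeFn_toLp (p := 2) (𝕜 := ℂ) σ
  have e2 := Lp.coeFn_sub (ch σ (h : ℤ)) (∑ j, (fourier (h : ℤ) (y j) : ℂ) •
    (indicatorConstLp 2 (hB j) (measure_ne_top σ _) (1 : ℂ)))
  have e3 := Lp.coeFn_fun_finsetSum Finset.univ (fun j => (fourier (h : ℤ) (y j) : ℂ) •
    (indicatorConstLp 2 (hB j) (measure_ne_top σ _) (1 : ℂ)))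
  have e4 : ∀ᵐ x ∂σ, ∀ j, ((fourier (h : ℤ) (y j) : ℂ) •
    (indicatorConstLp 2 (hB j) (measure_ne_top σ _) (1 : ℂ)) : Lp ℂ 2 σ) x =
      (fourier (h : ℤ) (y j) : ℂ) • (B j).indicator (fun _ => (1 : ℂ)) x := by
    rw [ae_all_iff]
    intro j
    filter_upwards [Lp.coeFn_smul (fourier (h : ℤ) (y j) : ℂ)
      (indicatorConstLp 2 (hB j) (measure_ne_top σ _) (1 : ℂ)),
      indicatorConstLp_coeFn (p := 2) (hs := hB j) (hμs := measure_ne_top σ _) (c := (1 : ℂ))]
      with x h1 h2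
    rw [h1, Pi.smul_apply, h2]
  have e5 := Lp.coeFn_add g1 g2
  have e6 : g1 =ᵐ[σ] Kᶜ.indicator fun _ => (1 : ℂ) := indicatorConstLp_coeFn
  have e7 : g2 =ᵐ[σ] Set.univ.indicator fun _ => ((2 * Real.pi * h * r : ℝ) : ℂ) :=
    indicatorConstLp_coeFn
  filter_upwards [e1, e2, e3, e4, e5, e6, e7] with x e1 e2 e3 e4 e5 e6 e7
  rw [e2, e5, Pi.sub_apply, Pi.add_apply, e3, e6, e7]
  unfold ch
  rw [e1, Finset.sum_congr rfl (fun j _ => e4 j)]
  rw [Set.indicator_of_mem (Set.mem_univ x)]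
  by_cases hx : x ∈ K
  · obtain ⟨j, hj⟩ := hun x hx
    rw [Finset.sum_eq_single j]
    · rw [Set.indicator_of_mem hj, Set.indicator_of_notMem (by simpa using hx), zero_add,
        smul_eq_mul, mul_one, Complex.norm_real, Real.norm_eq_abs, abs_of_nonneg hr0]
      have hj2 := (hBf j hj).2
      rw [Metric.mem_closedBall] at hj2
      refine (fourier_close h x (y j)).trans ?_
      gcongr
    · intro i _ hij
      have : x ∉ B i := fun hi => Set.disjoint_left.1 (hdisj i j hij) hi hj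
      rw [Set.indicator_of_notMem this, smul_zero]
    · intro hcon
      exact absurd (Finset.mem_univ j) hcon
  · rw [Finset.sum_eq_zero, sub_zero, Set.indicator_of_mem (by simpa using hx)]
    · have h1 : ‖(fourier (h : ℤ) x : ℂ)‖ = 1 := by
        rw [fourier_apply]
        exact Circle.norm_coe _
      rw [h1]
      have h2 : (1 : ℂ) + ((2 * Real.pi * h * r : ℝ) : ℂ) = ((1 + 2 * Real.pi * h * r : ℝ) : ℂ) := by
        push_cast
        ring
      rw [h2, Complex.norm_real, Real.norm_eq_abs, abs_of_nonneg (by positivity)]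
      linarith
    · intro i _
      have : x ∉ B i := fun hi => hx (hBf i hi).1
      rw [Set.indicator_of_notMem this, smul_zero]

theorem S_SING_holds : S_SING := by
  classical
  intro H _ _ _ U ξ hsing ε hε
  obtain ⟨σ, hfin, hσ, hms⟩ := hsing
  obtain ⟨W, hW, _, _⟩ := cyc_iso U ξ σ hσ
  obtain ⟨Z, hZm, hZ1, hZ2⟩ := hms
  -- `σ Z = 0`, `volume Zᶜ = 0`
  set S : ℝ := σ.real Set.univ ^ ((1 : ℝ) / 2) with hS
  have hS0 : 0 ≤ S := Real.rpow_nonneg measureReal_nonneg _
  set δ : ℝ := ε / (4 * Real.pi * (S + 1)) with hδ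
  have hδ0 : 0 < δ := by
    have := Real.pi_pos
    positivity
  have hδS : 2 * Real.pi * δ * S ≤ ε / 2 := by
    rw [hδ]
    have h1 : 2 * Real.pi * (ε / (4 * Real.pi * (S + 1))) * S = (ε / 2) * (S / (S + 1)) := by
      have := Real.pi_pos
      field_simp
      ring
    rw [h1]
    have h2 : S / (S + 1) ≤ 1 := by
      rw [div_le_one (by linarith)]
      linarith
    nlinarith
  obtain ⟨K, hKZ, hK, hKσ⟩ := hZm.compl.exists_isCompact_lt_add (measure_ne_top σ _)
    (ε := ENNReal.ofReal ((ε / 2) ^ 2)) (by simp; positivity)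
  have hKv : (volume : Measure (AddCircle (1 : ℝ))) K = 0 := measure_mono_null hKZ hZ2
  have hKm : MeasurableSet K := hK.isClosed.measurableSet
  have hKc : σ.real Kᶜ ^ ((1 : ℝ) / 2) ≤ ε / 2 := by
    have h1 : σ Kᶜ ≤ ENNReal.ofReal ((ε / 2) ^ 2) := by
      have h2 : σ Kᶜ ≤ σ (Zᶜ \ K) + σ Z := by
        refine (measure_mono ?_).trans (measure_union_le _ _)
        intro x hx
        by_cases hxZ : x ∈ Z
        · exact Or.inr hxZ
        · exact Or.inl ⟨hxZ, hx⟩
      rw [hZ1, add_zero, measure_sdiff hKZ hKm.nullMeasurableSet (measure_ne_top σ _)] at h2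
      refine h2.trans ?_
      rw [tsub_le_iff_left]
      exact hKσ.le
    have h3 : σ.real Kᶜ ≤ (ε / 2) ^ 2 := by
      rw [measureReal_def]
      exact ENNReal.toReal_le_of_le_ofReal (by positivity) h1
    rw [← Real.sqrt_eq_rpow]
    exact Real.sqrt_le_iff.2 ⟨by positivity, h3⟩
  obtain ⟨R, hR, hcov⟩ := cover K hK hKv (ε * δ) (by positivity)
  refine ⟨⌈δ / R⌉₊ + 1, fun L hL => ?_⟩
  have hL1 : (δ / R : ℝ) ≤ L := by
    have h1 := Nat.le_ceil (δ / R)
    have h2 : ((⌈δ / R⌉₊ + 1 : ℕ) : ℝ) ≤ L := by exact_mod_cast hL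
    push_cast at h2
    linarith
  have hL0 : (0 : ℝ) < L := by
    have : (0 : ℝ) < δ / R := by positivity
    linarith
  have hr0 : 0 < δ / L := by positivity
  have hrR : δ / L ≤ R := by
    rw [div_le_iff₀ hL0, mul_comm, ← div_le_iff₀ hR]
    exact hL1
  obtain ⟨s, hs1, hs2⟩ := hcov (δ / L) hr0 hrR
  have hs3 : (s.card : ℝ) ≤ ε * L := by
    have h1 : (s.card : ℝ) * (δ / L) * (L / δ) ≤ ε * δ * (L / δ) := by gcongr
    have h2 : (s.card : ℝ) * (δ / L) * (L / δ) = s.card := by field_simp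
    have h3 : ε * δ * (L / δ) = ε * L := by field_simp
    rw [h2, h3] at h1
    exact h1
  obtain ⟨v, hv⟩ := approx σ K hKm s (δ / L) hr0.le hs2
  let V : Submodule ℂ H := Submodule.span ℂ (Set.range fun j => W (v j))
  have hfd : FiniteDimensional ℂ V := FiniteDimensional.span_of_finite ℂ (Set.finite_range _)
  let b := stdOrthonormalBasis ℂ V
  have hd : Module.finrank ℂ V ≤ s.card := by
    have h1 := finrank_range_le_card (R := ℂ) (fun j => W (v j))
    rw [Fintype.card_fin] at h1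
    exact h1
  refine ⟨Module.finrank ℂ V, fun j => (b j : H), ?_, ?_, ?_⟩
  · exact b.orthonormal.comp_linearIsometry V.subtypeₗᵢ
  · refine le_trans ?_ hs3
    exact_mod_cast hd
  · intro h hh
    obtain ⟨c, hc⟩ := hv h
    have h1 : ∑ j, (inner ℂ ((b j : V) : H) ((U ^ h) ξ) : ℂ) • ((b j : V) : H) =
        V.starProjection ((U ^ h) ξ) := by
      rw [Submodule.starProjection_apply, b.orthogonalProjectionOnto_apply_eq_sum]
      rw [Submodule.coe_sum]
      rfl
    rw [h1, Submodule.starProjection_minimal]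
    have hmem : ∑ j, c j • W (v j) ∈ V :=
      Submodule.sum_mem _ fun j _ => Submodule.smul_mem _ _ (Submodule.subset_span ⟨j, rfl⟩)
    refine (ciInf_le ⟨0, ?_⟩ ⟨_, hmem⟩).trans ?_
    · rintro _ ⟨x, rfl⟩
      exact norm_nonneg _
    · have h2 : (U ^ h) ξ = W (ch σ (h : ℤ)) := by
        rw [hW, zpow_natCast]
      have h3 : (U ^ h) ξ - ∑ j, c j • W (v j) = W (ch σ (h : ℤ) - ∑ j, c j • v j) := by
        rw [map_sub, map_sum, h2]
        simp only [map_smul]
      change ‖(U ^ h) ξ - ∑ j, c j • W (v j)‖ ≤ ε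
      rw [h3, LinearIsometry.norm_map]
      refine hc.trans ?_
      have h4 : 2 * Real.pi * h * (δ / L) * S ≤ ε / 2 := by
        refine le_trans ?_ hδS
        have h5 : 2 * Real.pi * h * (δ / L) = 2 * Real.pi * δ * ((h : ℝ) / L) := by ring
        rw [h5]
        have h6 : (h : ℝ) / L ≤ 1 := by
          rw [div_le_one hL0]
          exact_mod_cast hh.le
        have h7 : 2 * Real.pi * δ * ((h : ℝ) / L) ≤ 2 * Real.pi * δ * 1 := by
          have := Real.pi_pos
          gcongr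
        rw [mul_one] at h7
        exact mul_le_mul_of_nonneg_right h7 hS0
      linarith

end Pool.Agent.N767.CB
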